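import Mathlib
import Pool.Agent.Q141.Vol.Core
import Pool.Agent.Q141.Vol.Simplex

set_option autoImplicit false

/-!
# MP_362855_co: volume of lattice polytopes with h*-polynomial `1 + a t^k + b t^(2k)`
-/

namespace Pool.Agent.Results.MP_362855_co.VolumeBound

open Finset Pool.Agent.Q141.Vol

/-- A lattice polytope of `ℝ^d`: the convex hull of finitely many points of `ℤ^d`. -/
def IsLatticePolytope {d : ℕ} (P : Set (Fin d → ℝ)) : Prop :=
  ∃ S : Finset (Fin d → ℤ), P = convexHull ℝ ((fun z i => (z i : ℝ)) '' (S : Set (Fin d → ℤ)))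

/-- `f` is the h*-polynomial of the `d`-dimensional set `P ⊂ ℝ^d`:
`(∑ m ≥ 0, #(mP ∩ ℤ^d) t^m) (1 - t)^(d+1) = f(t)`. -/
def IsHStar {d : ℕ} (P : Set (Fin d → ℝ)) (f : Polynomial ℤ) : Prop :=
  (PowerSeries.mk fun m => (ehr P m : ℤ)) * (1 - PowerSeries.X) ^ (d + 1) = (f : PowerSeries ℤ)

lemma coeff_one_mul {d : ℕ} (F : PowerSeries ℤ) :
    PowerSeries.coeff 1 (F * (1 - PowerSeries.X) ^ (d + 1)) =
      PowerSeries.coeff 1 F - (d + 1) * PowerSeries.coeff 0 F := by
  have h : ∀ n : ℕ, PowerSeries.coeff 0 ((1 - PowerSeries.X : PowerSeries ℤ) ^ n) = 1 ∧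
      PowerSeries.coeff 1 ((1 - PowerSeries.X : PowerSeries ℤ) ^ n) = - n := by
    intro n
    induction n with
    | zero => simp [PowerSeries.coeff_one]
    | succ n ih =>
      rw [pow_succ]
      constructor
      · rw [PowerSeries.coeff_mul]
        simp
      · rw [PowerSeries.coeff_mul, Finset.Nat.antidiagonal_succ]
        simp [ih.2, PowerSeries.coeff_one]
  rw [PowerSeries.coeff_mul, Finset.Nat.antidiagonal_succ]
  simp [(h (d + 1)).2]
  ring

theorem result {d : ℕ} (P : Set (Fin d → ℝ)) (hP : IsLatticePolytope P)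
    (hdim : affineSpan ℝ P = ⊤) (k a b : ℕ) (hk : 2 ≤ k) (hb : 2 ≤ b)
    (h : IsHStar P (1 + Polynomial.C (a : ℤ) * Polynomial.X ^ k +
      Polynomial.C (b : ℤ) * Polynomial.X ^ (2 * k))) :
    a + b + 1 ≤ (4 * b + 4) * k := by
  classical
  obtain ⟨S, rfl⟩ := hP
  set c : (Fin d → ℤ) → (Fin d → ℝ) := fun z i => (z i : ℝ) with hc
  have hcinj : Function.Injective c := by
    intro x y hxy
    funext i
    have := congrFun hxy i
    simp only [hc] at this
    exact_mod_cast this
  unfold IsHStar at h
  -- low coefficients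
  have hc0 : ehr (convexHull ℝ (c '' (S : Set (Fin d → ℤ)))) 0 = 1 := by
    have := congrArg (PowerSeries.coeff 0) h
    rw [Polynomial.coeff_coe] at this
    have e1 : ¬ (0 = k) := by omega
    have e2 : ¬ (0 = 2 * k) := by omega
    have e3 : ¬ (k = 0) := by omega
    simp [Polynomial.coeff_one, Polynomial.coeff_X_pow, e1, e3] at this
    exact_mod_cast this
  have hc1 : ehr (convexHull ℝ (c '' (S : Set (Fin d → ℤ)))) 1 = d + 1 := by
    have := congrArg (PowerSeries.coeff 1) h
    rw [Polynomial.coeff_coe, coeff_one_mul] at this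
    have e1 : ¬ (1 = k) := by omega
    have e2 : ¬ (1 = 2 * k) := by omega
    simp [Polynomial.coeff_one, Polynomial.coeff_X_pow, e1, e2, hc0] at this
    have h3 : (ehr (convexHull ℝ (c '' (S : Set (Fin d → ℤ)))) 1 : ℤ) = d + 1 := by linarith
    exact_mod_cast h3
  -- S has at most d + 1 points
  have hS1 : S.card ≤ d + 1 := by
    rw [← hc1, ← Set.ncard_coe_finset]
    unfold ehr
    have hfin : {x : Fin d → ℤ | (fun i => (x i : ℝ)) ∈ (fun y => ((1 : ℕ) : ℝ) • y) ''
        convexHull ℝ (c '' (S : Set (Fin d → ℤ)))}.Finite := by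
      apply Set.finite_of_ncard_ne_zero
      have : ehr (convexHull ℝ (c '' (S : Set (Fin d → ℤ)))) 1 ≠ 0 := by rw [hc1]; omega
      exact this
    apply Set.ncard_le_ncard _ hfin
    intro x hx
    refine ⟨c x, subset_convexHull ℝ _ ⟨x, hx, rfl⟩, ?_⟩
    funext i
    show ((1 : ℕ) : ℝ) * c x i = (x i : ℝ)
    rw [Nat.cast_one, one_mul]
  rw [affineSpan_convexHull] at hdim
  have hSne : S.card ≠ 0 := by
    intro h0
    rw [Finset.card_eq_zero] at h0
    rw [h0] at hdim
    simp at hdim
  obtain ⟨n, hn⟩ : ∃ n, S.card = n + 1 := ⟨S.card - 1, by omega⟩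
  have hvs : vectorSpan ℝ (c '' (S : Set (Fin d → ℤ))) = ⊤ := by
    rw [← direction_affineSpan, hdim, AffineSubspace.direction_top]
  have hS2 : S.card = d + 1 := by
    have h1 := finrank_vectorSpan_image_finset_le ℝ c S hn
    rw [Finset.coe_image, hvs] at h1
    simp at h1
    omega
  -- enumerate
  let e : Fin (d + 1) ≃ S := (S.equivFinOfCardEq hS2).symm
  let v : Fin (d + 1) → Fin d → ℤ := fun i => (e i : Fin d → ℤ)
  have hrange : Set.range (vR v) = c '' (S : Set (Fin d → ℤ)) := by
    ext x
    constructor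
    · rintro ⟨i, rfl⟩
      exact ⟨v i, (e i).2, rfl⟩
    · rintro ⟨z, hz, rfl⟩
      refine ⟨e.symm ⟨z, hz⟩, ?_⟩
      show c (e (e.symm ⟨z, hz⟩) : Fin d → ℤ) = c z
      rw [Equiv.apply_symm_apply]
  have hv : AffineIndependent ℝ (vR v) := by
    rw [affineIndependent_iff_finrank_vectorSpan_eq ℝ (vR v) (Fintype.card_fin (d + 1)), hrange, hvs]
    simp
  have : Finite (GG v) := finite_GG v hv
  have : Fintype (GG v) := Fintype.ofFinite _
  have hstar := hstar_eq v hv
  rw [hrange, h] at hstar
  -- coefficients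
  have hcoef : ∀ j : ℕ, ((univ.filter (fun τ : GG v => ht v τ = j)).card : ℤ) =
      (if j = 0 then 1 else 0) + (if j = k then (a : ℤ) else 0) + (if j = 2 * k then (b : ℤ) else 0) := by
    intro j
    have h1 := congrArg (PowerSeries.coeff j) hstar
    rw [Polynomial.coeff_coe, map_sum] at h1
    simp only [Polynomial.coeff_add, Polynomial.coeff_one, Polynomial.coeff_C_mul,
      Polynomial.coeff_X_pow, PowerSeries.coeff_X_pow, mul_ite, mul_one, mul_zero] at h1
    rw [h1, Finset.card_filter]
    push_cast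
    apply Finset.sum_congr rfl
    intro τ _
    simp only [eq_comm]
  have hz : ∀ x : GG v, x ≠ 0 → ht v x ≠ 0 := by
    intro x hx h0
    have h1 := hcoef 0
    have e1 : ¬ (0 = k) := by omega
    have e2 : ¬ (0 = 2 * k) := by omega
    rw [if_pos rfl, if_neg e1, if_neg e2] at h1
    have h2 : (univ.filter (fun τ : GG v => ht v τ = 0)).card = 1 := by
      have : ((univ.filter (fun τ : GG v => ht v τ = 0)).card : ℤ) = 1 := by linarith
      exact_mod_cast this
    rw [Finset.card_eq_one] at h2
    obtain ⟨y, hy⟩ := h2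
    have m1 : x ∈ univ.filter (fun τ : GG v => ht v τ = 0) := by simp [h0]
    have m2 : (0 : GG v) ∈ univ.filter (fun τ : GG v => ht v τ = 0) := by simp [ht_zero]
    rw [hy, mem_singleton] at m1 m2
    exact hx (m1.trans m2.symm)
  have h1 : ∀ x : GG v, x ≠ 0 → ht v x = k ∨ ht v x = 2 * k := by
    intro x hx
    by_contra hcon
    push Not at hcon
    have h2 := hcoef (ht v x)
    rw [if_neg (hz x hx), if_neg hcon.1, if_neg hcon.2] at h2
    have h3 : (univ.filter (fun τ : GG v => ht v τ = ht v x)).card = 0 := by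
      have : ((univ.filter (fun τ : GG v => ht v τ = ht v x)).card : ℤ) = 0 := by linarith
      exact_mod_cast this
    rw [Finset.card_eq_zero, Finset.filter_eq_empty_iff] at h3
    exact h3 (mem_univ x) rfl
  have h2k : (univ.filter (fun τ : GG v => ht v τ = 2 * k)).card = b := by
    have h2 := hcoef (2 * k)
    have e1 : ¬ (2 * k = k) := by omega
    have e2 : ¬ (2 * k = 0) := by omega
    rw [if_neg e2, if_neg e1, if_pos rfl] at h2
    have : ((univ.filter (fun τ : GG v => ht v τ = 2 * k)).card : ℤ) = b := by linarith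
    exact_mod_cast this
  have hk1 : (univ.filter (fun τ : GG v => ht v τ = k)).card = a := by
    have h2 := hcoef k
    have e1 : ¬ (k = 2 * k) := by omega
    have e2 : ¬ (k = 0) := by omega
    rw [if_neg e2, if_pos rfl, if_neg e1] at h2
    have : ((univ.filter (fun τ : GG v => ht v τ = k)).card : ℤ) = a := by linarith
    exact_mod_cast this
  have hcardG : Fintype.card (GG v) = a + b + 1 := by
    have e0 : (univ : Finset (GG v)) = {0} ∪ (univ.filter (fun τ : GG v => ht v τ = k)) ∪
        (univ.filter (fun τ : GG v => ht v τ = 2 * k)) := by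
      ext x
      simp only [mem_univ, mem_union, mem_singleton, mem_filter, true_and, true_iff]
      by_cases hx : x = 0
      · exact Or.inl (Or.inl hx)
      · rcases h1 x hx with h | h
        · exact Or.inl (Or.inr h)
        · exact Or.inr h
    have e1 : Disjoint ({0} : Finset (GG v)) (univ.filter (fun τ : GG v => ht v τ = k)) := by
      rw [Finset.disjoint_singleton_left]
      intro h
      rw [mem_filter, ht_zero] at h
      omega
    have e2 : Disjoint ({0} ∪ (univ.filter (fun τ : GG v => ht v τ = k)))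
        (univ.filter (fun τ : GG v => ht v τ = 2 * k)) := by
      rw [Finset.disjoint_left]
      intro x hx hx2
      rw [mem_filter] at hx2
      rw [mem_union, mem_singleton, mem_filter] at hx
      rcases hx with rfl | hx
      · rw [ht_zero] at hx2; omega
      · omega
    rw [← Finset.card_univ, e0, card_union_of_disjoint e2, card_union_of_disjoint e1, hk1, h2k,
      card_singleton]
    omega
  -- the coordinate subgroups
  let H : Fin (d + 1) → AddSubgroup (GG v) := fun i =>
    ((Pi.evalAddMonoidHom (fun _ : Fin (d + 1) => AddCircle (1 : ℝ)) i).comp (GG v).subtype).ker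
  have hH : ∀ i (x : GG v), x ∈ H i ↔ x.1 i = 0 := by
    intro i x
    rw [AddMonoidHom.mem_ker]
    rfl
  let I : Finset (Fin (d + 1)) := univ.filter (fun i => H i ≠ ⊤)
  have hwt : ∀ x : GG v, (I.filter (fun i => x ∉ H i)).card = ht v x + ht v (-x) := by
    intro x
    rw [ht_add_neg]
    congr 1
    ext i
    simp only [I, mem_filter, mem_univ, true_and, hH]
    constructor
    · rintro ⟨-, h⟩; exact h
    · intro h
      refine ⟨fun ht => h ?_, h⟩
      rw [← hH, ht]
      exact AddSubgroup.mem_top x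
  have := core I H (fun i hi => (mem_filter.1 hi).2) (ht v) k b (by omega) hb (ht_zero v) h1
    (fun x => by convert hwt x) (by convert h2k)
  omega

end Pool.Agent.Results.MP_362855_co.VolumeBound
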